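import Mathlib

/-!
# Strong o-conjugacy of semigroups is not transitive

Two elements `a`, `b` of a semigroup `S` are strongly o-conjugate if there are mutually inverse
`g`, `h` in `S ^ 1` with `a g = g b` and `b h = h a`. We give a semigroup in which this relation is
not transitive.

The semigroup `T` has three parts. The elements of degree `0` are the alternating words in two
idempotents `g` and `k` (the free product of two one-element semigroups); the word with first letter
`i` and `n` changes of letters is `w i n`. The elements of degree `1` are `a`, `b`, `c`; on them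
(from both sides) `g` acts by `a, b ↦ b`, `c ↦ c`, and `k` by `a ↦ a`, `b, c ↦ b`, so all words with
both letters act by the constant `b`. All elements of degree `n + 2` are identified to one element
`z n`. Then `a g = b = g b`, `b g = b = g a` and `b k = b = k c`, `c k = b = k b`, but the only
regular elements of `T` are `g` and `k`, and `a g ≠ g c`, `a k ≠ k c`.
-/

set_option autoImplicit false

namespace Pool.Agent.Results.MP_d6d41b_al.NotTransitive

/-- `S` has an identity element. -/
def HasIdentity (S : Type*) [Semigroup S] : Prop := ∃ e : S, ∀ x : S, e * x = x ∧ x * e = x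

/-- There are mutually inverse `g`, `h` in `M` with `a g = g b` and `b h = h a`. -/
def Linked {M : Type*} [Semigroup M] (a b : M) : Prop :=
  ∃ g h : M, g * h * g = g ∧ h * g * h = h ∧ a * g = g * b ∧ b * h = h * a

/-- Strong o-conjugacy in the semigroup `S`: the elements `g`, `h` are taken in `S ^ 1`, which is
`S` if `S` has an identity element and `S` with an identity element adjoined if `S` has none. -/
def StronglyOConj {S : Type*} [Semigroup S] (a b : S) : Prop :=
  (HasIdentity S ∧ Linked a b) ∨ (¬ HasIdentity S ∧ Linked (a : WithOne S) (b : WithOne S))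

/-- The semigroup of the example: `w i n` is the alternating word in the idempotents `g` (`i` is
`true`) and `k` (`i` is `false`) with first letter `i` and `n` changes, `s 0`, `s 1`, `s 2` are `a`,
`b`, `c`, and `z n` is the element of degree `n + 2`. -/
inductive T : Type
  | w (i : Bool) (n : ℕ) : T
  | s (α : Fin 3) : T
  | z (n : ℕ) : T

namespace T

/-- The last letter of an alternating word. -/
def last (i : Bool) (n : ℕ) : Bool := if n % 2 = 0 then i else !i

/-- The action of the word `w i n` on `a`, `b`, `c` (the same from the left and from the right). -/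
def act (i : Bool) (n : ℕ) (α : Fin 3) : Fin 3 :=
  if n = 0 then (if i then (if α = 2 then 2 else 1) else (if α = 0 then 0 else 1)) else 1

/-- The multiplication. -/
def mul : T → T → T
  | w i n, w j m => w i (n + m + if last i n = j then 0 else 1)
  | w i n, s α => s (act i n α)
  | s α, w i n => s (act i n α)
  | w _ _, z m => z m
  | z m, w _ _ => z m
  | s _, s _ => z 0
  | s _, z m => z (m + 1)
  | z m, s _ => z (m + 1)
  | z m, z l => z (m + l + 2)

instance : Mul T := ⟨mul⟩

@[simp] theorem w_w (i j : Bool) (n m : ℕ) :
    (w i n * w j m : T) = w i (n + m + if last i n = j then 0 else 1) := rfl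
@[simp] theorem w_s (i : Bool) (n : ℕ) (α : Fin 3) : (w i n * s α : T) = s (act i n α) := rfl
@[simp] theorem s_w (i : Bool) (n : ℕ) (α : Fin 3) : (s α * w i n : T) = s (act i n α) := rfl
@[simp] theorem w_z (i : Bool) (n m : ℕ) : (w i n * z m : T) = z m := rfl
@[simp] theorem z_w (i : Bool) (n m : ℕ) : (z m * w i n : T) = z m := rfl
@[simp] theorem s_s (α β : Fin 3) : (s α * s β : T) = z 0 := rfl
@[simp] theorem s_z (α : Fin 3) (m : ℕ) : (s α * z m : T) = z (m + 1) := rfl
@[simp] theorem z_s (α : Fin 3) (m : ℕ) : (z m * s α : T) = z (m + 1) := rfl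
@[simp] theorem z_z (m l : ℕ) : (z m * z l : T) = z (m + l + 2) := rfl

theorem last_add (i : Bool) (n m : ℕ) : last i (n + m) = last (last i n) m := by
  unfold last
  rcases Nat.mod_two_eq_zero_or_one n with hn | hn <;>
    rcases Nat.mod_two_eq_zero_or_one m with hm | hm <;> simp [Nat.add_mod, hn, hm]

theorem last_mul (i j : Bool) (n m : ℕ) :
    last i (n + m + if last i n = j then 0 else 1) = last j m := by
  rw [add_assoc, last_add]
  by_cases h : last i n = j
  · rw [if_pos h, h, add_zero]
  · rw [if_neg h, add_comm, last_add]
    have h2 : last (last i n) 1 = j := by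
      unfold last at h ⊢
      revert h
      by_cases h3 : n % 2 = 0
      · cases i <;> cases j <;> simp [h3]
      · cases i <;> cases j <;> simp [h3]
    rw [h2]

theorem act_pos {i : Bool} {n : ℕ} (hn : n ≠ 0) (α : Fin 3) : act i n α = 1 := by
  simp [act, hn]

theorem act_one (i : Bool) (n : ℕ) : act i n 1 = 1 := by
  unfold act
  cases i <;> split_ifs <;> simp_all

theorem act_act_zero (i j : Bool) (α : Fin 3) :
    act i 0 (act j 0 α) = if i = j then act i 0 α else 1 := by
  revert i j α
  decide

theorem act_comm (i j : Bool) (n m : ℕ) (α : Fin 3) :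
    act i n (act j m α) = act j m (act i n α) := by
  by_cases hn : n = 0
  · by_cases hm : m = 0
    · subst hn hm
      revert i j α
      decide
    · rw [act_pos hm, act_pos hm, act_one]
  · rw [act_pos hn, act_pos hn, act_one]

theorem act_mul (i j : Bool) (n m : ℕ) (α : Fin 3) :
    act i (n + m + if last i n = j then 0 else 1) α = act i n (act j m α) := by
  by_cases hn : n = 0
  · by_cases hm : m = 0
    · subst hn hm
      have h : last i 0 = i := rfl
      rw [h, act_act_zero]
      by_cases hij : i = j
      · simp [hij]
      · rw [if_neg hij, if_neg hij]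
        exact act_pos (by omega) α
    · rw [act_pos hm, act_one, act_pos (by omega)]
  · rw [act_pos hn, act_pos (by omega)]

theorem mul_assoc' (x y u : T) : x * y * u = x * (y * u) := by
  rcases x with ⟨i, n⟩ | α | n <;> rcases y with ⟨j, m⟩ | β | m <;>
    rcases u with ⟨l, p⟩ | γ | p
  · simp only [w_w, last_mul]
    congr 1
    omega
  · simp only [w_w, w_s, act_mul]
  · simp
  · simp only [w_s, s_w]
    rw [act_comm]
  · simp
  · simp
  · simp
  · simp
  · simp
    try omega
  · simp only [s_w, w_w]
    rw [act_mul, act_comm]
  · simp
  · simp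
  · simp
  · simp
  · simp
    try omega
  · simp
  · simp
    try omega
  · simp
    try omega
  · simp
  · simp
  · simp
  · simp
  · simp
    try omega
  · simp
    try omega
  · simp
  · simp
    try omega
  · simp
    try omega

instance : Semigroup T where
  mul_assoc := mul_assoc'

end T

open T

theorem no_identity : ¬ HasIdentity T := by
  rintro ⟨e, he⟩
  have h1 := (he (w true 0)).1
  have h2 := (he (w false 0)).1
  rcases e with ⟨i, n⟩ | α | n
  · simp only [w_w, w.injEq] at h1 h2
    have := h1.1.symm.trans h2.1
    exact absurd this (by decide)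
  · simp at h1
  · simp at h1

/-- An element `x` of `T` with `x y x = x` for some `y` is `g` or `k`. -/
theorem inverse_pairs {x y : T} (h : x * y * x = x) : ∃ i : Bool, x = w i 0 := by
  rcases x with ⟨i, n⟩ | α | n
  · rcases y with ⟨j, m⟩ | β | m
    · simp only [w_w, w.injEq, true_and] at h
      have hn : n = 0 := by omega
      exact ⟨i, by rw [hn]⟩
    · simp at h
    · simp at h
  · rcases y with ⟨j, m⟩ | β | m <;> simp at h
  · rcases y with ⟨j, m⟩ | β | m
    · simp at h
      omega
    · simp at h
      omega
    · simp at h
      omega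

theorem linked_withOne {S : Type*} [Semigroup S] {a b : S}
    (h : Linked (a : WithOne S) (b : WithOne S)) : a = b ∨ Linked a b := by
  obtain ⟨g, k, h1, h2, h3, h4⟩ := h
  induction g using WithOne.recOneCoe with
  | one =>
    left
    rw [mul_one, one_mul] at h3
    exact WithOne.coe_inj.mp h3
  | coe g =>
    induction k using WithOne.recOneCoe with
    | one =>
      left
      rw [mul_one, one_mul] at h4
      exact (WithOne.coe_inj.mp h4).symm
    | coe k =>
      right
      simp only [← WithOne.coe_mul, WithOne.coe_inj] at h1 h2 h3 h4
      exact ⟨g, k, h1, h2, h3, h4⟩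

theorem withOne_linked {S : Type*} [Semigroup S] {a b : S} (h : Linked a b) :
    Linked (a : WithOne S) (b : WithOne S) := by
  obtain ⟨g, k, h1, h2, h3, h4⟩ := h
  refine ⟨(g : WithOne S), (k : WithOne S), ?_, ?_, ?_, ?_⟩ <;>
    simp only [← WithOne.coe_mul, WithOne.coe_inj] <;> assumption

theorem not_linked : ¬ Linked (s 0) (s 2) := by
  rintro ⟨x, y, h1, h2, h3, h4⟩
  obtain ⟨i, rfl⟩ := inverse_pairs h1
  revert h3
  cases i
  · show s (act false 0 0) = s (act false 0 2) → False
    intro h
    simp [act] at h
  · show s (act true 0 0) = s (act true 0 2) → False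
    intro h
    simp [act] at h

/-- **Strong o-conjugacy is not transitive.** There is a semigroup `S` with elements `a`, `b`, `c`
such that `a`, `b` are strongly o-conjugate and `b`, `c` are strongly o-conjugate, but `a`, `c` are
not. -/
theorem result : ∃ (S : Type) (_ : Semigroup S) (a b c : S),
    StronglyOConj a b ∧ StronglyOConj b c ∧ ¬ StronglyOConj a c := by
  refine ⟨T, inferInstance, s 0, s 1, s 2, ?_, ?_, ?_⟩
  · refine Or.inr ⟨no_identity, withOne_linked ⟨w true 0, w true 0, ?_, ?_, ?_, ?_⟩⟩ <;> rfl
  · refine Or.inr ⟨no_identity, withOne_linked ⟨w false 0, w false 0, ?_, ?_, ?_, ?_⟩⟩ <;> rfl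
  · rintro (⟨h, _⟩ | ⟨_, h⟩)
    · exact no_identity h
    · rcases linked_withOne h with h | h
      · simp at h
      · exact not_linked h

end Pool.Agent.Results.MP_d6d41b_al.NotTransitive
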